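import Pool.Agent.TH874.QPS.Par
import Pool.Agent.TH874.QPS.Bwd2
import Pool.Agent.TH874.QPS.Hy

/-!
# Quillen's question for power series rings over complete local rings
-/

set_option autoImplicit false

open Polynomial

namespace Pool.Agent.Results.MP_3e5078_ag.CompleteEquivalence

open IsLocalRing

/-- all finitely generated projective `A`-modules are free -/
def ProjFree (A : Type) [CommRing A] : Prop :=
  ∀ (P : Type) [AddCommGroup P] [Module A P] [Module.Finite A P] [Module.Projective A P],
    Module.Free A P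

/-- `R` is a regular local ring with maximal ideal `m`, `r` is in `m` but not in `m^2`, and all
finitely generated projective `R[1/r]`-modules are free -/
def QuillenYes (R : Type) [CommRing R] (r : R) : Prop :=
  ∃ _ : IsRegularLocalRing R, r ∈ maximalIdeal R ∧ r ∉ maximalIdeal R ^ 2 ∧
    ProjFree (Localization.Away r)

/-- Quillen's question has a positive answer for all regular local rings of dimension `d` -/
def QuillenDim (d : ℕ) : Prop :=
  ∀ (L : Type) [CommRing L] [IsRegularLocalRing L], ringKrullDim L = d →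
    ∀ r : L, r ∈ maximalIdeal L → r ∉ maximalIdeal L ^ 2 → ProjFree (Localization.Away r)

/-- the Bass-Quillen conjecture in one variable for all regular local rings of dimension `d` -/
def BassQuillenDim (d : ℕ) : Prop :=
  ∀ (L : Type) [CommRing L] [IsRegularLocalRing L], ringKrullDim L = d → ProjFree L[X]

/-- `r` is a power series with non-unit constant coefficient and unit linear coefficient -/
def LinearParameter {A : Type} [CommRing A] (r : PowerSeries A) : Prop :=
  ¬ IsUnit (PowerSeries.constantCoeff r) ∧ IsUnit (PowerSeries.coeff 1 r)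

/-- the ring `W[[X_0,...,X_(k+1)]]/(X_0 X_1 - u)` -/
abbrev HRing (W : Type) [CommRing W] (u : W) (k : ℕ) : Type :=
  MvPowerSeries (Fin (k + 2)) W ⧸ Ideal.span
    {(MvPowerSeries.X 0 * MvPowerSeries.X 1 - MvPowerSeries.C u : MvPowerSeries (Fin (k + 2)) W)}

theorem projFree_iff (A : Type) [CommRing A] : ProjFree A ↔ BQ.IdemFree A :=
  ⟨fun h => BQ.idemFree_of_free h, fun h P _ _ _ _ => h.free P⟩

/-- **Quillen's question and Bass-Quillen over complete local rings** -/
theorem result :
    -- for a complete local domain `B`, Quillen's question for `(B[[X]], r)`, `r` with a unit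
    -- linear coefficient, is equivalent to Bass-Quillen in one variable for `B`
    (∀ (B : Type) [CommRing B] [IsDomain B] [IsLocalRing B] [IsAdicComplete (maximalIdeal B) B],
      (ProjFree (LaurentPolynomial B) ↔ ProjFree B[X]) ∧
      ∀ r : PowerSeries B, LinearParameter r →
        (ProjFree (Localization.Away r) ↔ ProjFree B[X])) ∧
    -- Quillen's question for `(W[[X_1,...,X_n]], b)`, `W` complete regular local of dimension `d`,
    -- `b` a regular parameter of `W`, reduces to Quillen's question in dimension `d`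
    (∀ d : ℕ, QuillenDim d →
      ∀ (W : Type) [CommRing W] [IsRegularLocalRing W] [IsAdicComplete (maximalIdeal W) W],
        ringKrullDim W = d → ∀ (n : ℕ) (b : W), b ∈ maximalIdeal W → b ∉ maximalIdeal W ^ 2 →
          QuillenYes (MvPowerSeries (Fin n) W) (MvPowerSeries.C b)) ∧
    -- Quillen's question for `(W[[X_1,...,X_n]][[X]], r)`, `r` with a unit linear coefficient,
    -- reduces to Bass-Quillen in one variable in dimension `d`
    (∀ d : ℕ, BassQuillenDim d →
      ∀ (W : Type) [CommRing W] [IsRegularLocalRing W] [IsAdicComplete (maximalIdeal W) W],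
        ringKrullDim W = d → ∀ (n : ℕ) (r : PowerSeries (MvPowerSeries (Fin n) W)),
          LinearParameter r → QuillenYes (PowerSeries (MvPowerSeries (Fin n) W)) r) ∧
    -- Quillen's question for `(H[[X]], r)`, `H = W[[X_0,...,X_(k+1)]]/(X_0 X_1 - u)`, `W` complete
    -- regular local of dimension two, `u` a regular parameter of `W`
    (∀ (W : Type) [CommRing W] [IsRegularLocalRing W] [IsAdicComplete (maximalIdeal W) W],
      ringKrullDim W = 2 → ∀ u : W, u ∈ maximalIdeal W → u ∉ maximalIdeal W ^ 2 → ∀ (k : ℕ)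
        (r : PowerSeries (HRing W u k)), LinearParameter r →
          QuillenYes (PowerSeries (HRing W u k)) r) := by
  refine ⟨?_, ?_, ?_, ?_⟩
  · intro B _ _ _ _
    simp only [projFree_iff]
    exact ⟨(Pool.Agent.TH874.QPS.main_equiv B).2, fun r hr =>
      ⟨Pool.Agent.TH874.QPS.bwd_gen B r ((mem_maximalIdeal _).2 hr.1) hr.2, fun h =>
        Pool.Agent.TH874.QPS.fwd_gen B h r ((mem_maximalIdeal _).2 hr.1) hr.2⟩⟩
  · intro d h W _ _ _ hW n b hb hb2
    simp only [QuillenDim, projFree_iff] at h
    exact ⟨Pool.Agent.H40.BP.t_RGP n W, ((Pool.Agent.H40.BP.t_QPAR n W).2.2 b hb hb2).1,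
      ((Pool.Agent.H40.BP.t_QPAR n W).2.2 b hb hb2).2, (projFree_iff _).2
        (Pool.Agent.TH874.QPS.dim_param d h W hW n b hb hb2)⟩
  · intro d h W _ _ _ hW n r hr
    simp only [BassQuillenDim, projFree_iff] at h
    have hdomW : IsDomain W := Pool.Agent.H379R3.isDomain W
    have hreg : IsRegularLocalRing (MvPowerSeries (Fin n) W) := Pool.Agent.H40.BP.t_RGP n W
    have hdom : IsDomain (MvPowerSeries (Fin n) W) := NoZeroDivisors.to_isDomain _
    have hc := Pool.Agent.H40.BP.t_CPL n W
    obtain ⟨hm, hm2⟩ := Pool.Agent.TH874.QPS.param_ps _ r hr.1 hr.2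
    exact ⟨Pool.Agent.H40.BP.powerSeries_regular _, hm, hm2, (projFree_iff _).2
      (Pool.Agent.TH874.QPS.fwd_gen _ (Pool.Agent.TH874.QPS.dim_bq d h W hW n) r
        ((mem_maximalIdeal _).2 hr.1) hr.2)⟩
  · intro W _ _ _ hW u hu hu2 k r hr
    obtain ⟨hreg, -, hdom, hc, hB⟩ := Pool.Agent.TH874.QPS.hyp_data W hW u hu hu2 k
    obtain ⟨hm, hm2⟩ := Pool.Agent.TH874.QPS.param_ps _ r hr.1 hr.2
    exact ⟨Pool.Agent.H40.BP.powerSeries_regular _, hm, hm2, (projFree_iff _).2
      (Pool.Agent.TH874.QPS.fwd_gen _ hB r ((mem_maximalIdeal _).2 hr.1) hr.2)⟩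

end Pool.Agent.Results.MP_3e5078_ag.CompleteEquivalence
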