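import Pool.Agent.H40.BP.Asm7

/-!
# Quillen's question for the rings `W[[X_0,...,X_(r+1)]]/(X_0 X_1 - u)`, `W` a complete regular
local ring of dimension two, `u` a regular parameter of `W`
-/

set_option autoImplicit false

open Polynomial TensorProduct

namespace Pool.Agent.Results.MP_3e5078_ag.QuillenHyperbolic

open BQ Pool.Agent.W394.BQN Pool.Agent.H40.BP IsLocalRing

/-- **Quillen's question for `H = W[[X_0,...,X_(r+1)]]/(X_0 X_1 - u)` and the regular parameter
`X_0`**: all projective modules over (the polynomial rings over) `H[1/X_0]` are free. -/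
theorem result :
    ∀ (W : Type) [CommRing W] [IsRegularLocalRing W] [IsAdicComplete (maximalIdeal W) W],
      ringKrullDim W = 2 → ∀ u : W, u ∈ maximalIdeal W → u ∉ maximalIdeal W ^ 2 → ∀ r : ℕ,
        -- `H` is a regular local ring of dimension `r + 3` with the regular parameter `X_0`
        ringKrullDim (Hyp W u r) = ((r + 3 : ℕ) : WithBot ℕ∞) ∧
        (∃ _ : IsRegularLocalRing (Hyp W u r),
          hypMk W u r (MvPowerSeries.X 0) ∈ maximalIdeal (Hyp W u r) ∧
          hypMk W u r (MvPowerSeries.X 0) ∉ maximalIdeal (Hyp W u r) ^ 2) ∧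
        AllFree (Localization.Away (hypMk W u r (MvPowerSeries.X 0))) := by
  intro W _ _ _ hW u hu hu2 r
  have hreg := hyp_regular W hW u hu hu2 r
  refine ⟨hreg.2, ?_, c_H1 W hW u hu hu2 r⟩
  have h1 := hreg.1
  exact ⟨h1, hyp_X0 W hW u hu hu2 r⟩

end Pool.Agent.Results.MP_3e5078_ag.QuillenHyperbolic
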