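import Pool.Agent.H40.BP.Asm5

/-!
# Quillen's question for power series rings over complete regular local rings of dimension two
-/

set_option autoImplicit false

open Polynomial TensorProduct

namespace Pool.Agent.Results.MP_3e5078_ag.QuillenPowerSeries

open BQ Pool.Agent.W394.BQN Pool.Agent.H40.BP IsLocalRing

/-- **Quillen's question for `R = W[[X_1,...,X_n]]`**, `W` a complete regular local ring of
dimension two: all projective modules over (the polynomial rings over) `R[1/r]` are free if `r` is
a regular parameter outside `m_W R + m_R^2`, or a regular parameter of `W`. -/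
theorem result :
    ∀ (W : Type) [CommRing W] [IsRegularLocalRing W] [IsAdicComplete (maximalIdeal W) W],
      ringKrullDim W = 2 → ∀ n : ℕ,
        -- `R` is a regular local ring of dimension `n + 2`
        IsRegularLocalRing (MvPowerSeries (Fin n) W) ∧
        ringKrullDim (MvPowerSeries (Fin n) W) = ((2 + n : ℕ) : WithBot ℕ∞) ∧
        -- regular parameters involving a variable linearly
        (∀ r : MvPowerSeries (Fin n) W, MvPowerSeries.constantCoeff r ∈ maximalIdeal W →
          (∃ i : Fin n, IsUnit (MvPowerSeries.coeff (Finsupp.single i 1) r)) →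
            r ∈ maximalIdeal (MvPowerSeries (Fin n) W) ∧
            r ∉ maximalIdeal (MvPowerSeries (Fin n) W) ^ 2 ∧
            AllFree (Localization.Away r)) ∧
        -- regular parameters of `W`
        (∀ u : W, u ∈ maximalIdeal W → u ∉ maximalIdeal W ^ 2 →
          (MvPowerSeries.C u : MvPowerSeries (Fin n) W) ∈
            maximalIdeal (MvPowerSeries (Fin n) W) ∧
          (MvPowerSeries.C u : MvPowerSeries (Fin n) W) ∉
            maximalIdeal (MvPowerSeries (Fin n) W) ^ 2 ∧
          AllFree (Localization.Away (MvPowerSeries.C u : MvPowerSeries (Fin n) W))) := by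
  intro W _ _ _ hW n
  refine ⟨t_RGP n W, t_DIMP n 2 W (by exact_mod_cast hW), ?_, ?_⟩
  · rintro r hr0 ⟨i, hr1⟩
    exact ⟨c_mem n W r hr0, c_notMem n W r hr0 i hr1, c_Q1 W hW n r hr0 i hr1⟩
  · intro u hu hu2
    exact ⟨((t_QPAR n W).2.2 u hu hu2).1, ((t_QPAR n W).2.2 u hu hu2).2, c_Q2 W hW n u hu hu2⟩

end Pool.Agent.Results.MP_3e5078_ag.QuillenPowerSeries
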